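import Pool.Agent.H87.AQ.Targets
import Pool.Agent.H3.AM.Targets

/-!
# Alperin–McKay (MP_657073_al), residue dichotomy: modules Q2 and Q4 (Clifford theory for a normal
subgroup of prime index: induction of characters which are not invariant, and restriction)
-/

open scoped Classical ComplexConjugate

set_option linter.unusedSectionVars false

namespace AMq

open AMx

namespace QQ

variable {q : ℕ} [hq : Fact q.Prime] {X K : Type} [Group X] [Fintype X] [Group K] [Fintype K]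
  (F : Cy q X K)

/-- the multiplicity -/
noncomputable def mu (χ : X → ℂ) (θ : K → ℂ) : ℕ :=
  if h : ∃ m : ℕ, ∑ k, χ (F.io k) * conj (θ k) = m * (Nat.card K : ℂ) then h.choose else 0

theorem mu_spec (hM1 : T_M1) {χ : X → ℂ} (hχ : χ ∈ Irr X) {θ : K → ℂ} (hθ : θ ∈ Irr K) :
    ∑ k, χ (F.io k) * conj (θ k) = mu F χ θ * (Nat.card K : ℂ) := by
  have h := hM1 X K F.io χ hχ θ hθ
  unfold mu
  rw [dif_pos h]
  exact h.choose_spec

theorem card_ne : (Nat.card K : ℂ) ≠ 0 := Nat.cast_ne_zero.mpr Nat.card_pos.ne'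

theorem ov_iff (hM1 : T_M1) {χ : X → ℂ} (hχ : χ ∈ Irr X) {θ : K → ℂ} (hθ : θ ∈ Irr K) :
    F.Ov χ θ ↔ mu F χ θ ≠ 0 := by
  unfold Cy.Ov
  rw [mu_spec F hM1 hχ hθ, mul_ne_zero_iff]
  constructor
  · intro h
    exact_mod_cast h.1
  · intro h
    exact ⟨by exact_mod_cast h, card_ne⟩

theorem sg_irr (hQ1 : T_Q1) {θ : K → ℂ} (hθ : θ ∈ Irr K) (c : ℕ) :
    (fun k => θ ((F.sg ^ c) k)) ∈ Irr K := by
  induction c with
  | zero => simpa using hθ
  | succ c ih =>
    have := ((hQ1 q X K F).2.2.1 _ ih).1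
    simpa [pow_succ, MulAut.mul_apply] using this

include F in
theorem card_X (hQ1 : T_Q1) : (Nat.card X : ℂ) = q * Nat.card K := by
  rw [(hQ1 q X K F).1]; push_cast; ring

theorem ind_eq (hC1 : T_C1) (hQ1 : T_Q1) (hM1 : T_M1) (fs : Finset (X → ℂ))
    (hfs : ∀ θ, θ ∈ fs ↔ θ ∈ Irr X)
    (hexp : ∀ f : X → ℂ, CF f → ∀ x, (Nat.card X : ℂ) * f x =
      ∑ χ ∈ fs, (∑ g, f g * conj (χ g)) * χ x)
    {θ : K → ℂ} (hθ : θ ∈ Irr K) (x : X) :
    F.ind θ x = ∑ χ ∈ fs, (mu F χ θ : ℂ) * χ x := by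
  have hcf : CF θ := (hC1 K θ hθ).1.cf
  have h := hQ1 q X K F
  have h1 := hexp (F.ind θ) (h.2.2.2.2.1 θ hcf) x
  have hX : (Nat.card X : ℂ) ≠ 0 := Nat.cast_ne_zero.mpr Nat.card_pos.ne'
  apply mul_left_cancel₀ hX
  rw [h1, Finset.mul_sum]
  refine Finset.sum_congr rfl fun χ hχ => ?_
  have hχ' := (hfs χ).mp hχ
  have h2 := h.2.2.2.2.2.2.2.2.2 χ (hC1 X χ hχ').1.cf θ
  rw [mu_spec F hM1 hχ' hθ] at h2
  have h3 : ∑ g, F.ind θ g * conj (χ g) = conj (∑ g, χ g * conj (F.ind θ g)) := by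
    rw [map_sum]
    refine Finset.sum_congr rfl fun g _ => ?_
    rw [map_mul, Complex.conj_conj, mul_comm]
  rw [h3, h2, card_X F hQ1]
  simp only [map_mul, Complex.conj_natCast]
  ring

theorem count (hC1 : T_C1) (hA1 : AMc.T_A1) (hQ1 : T_Q1) (hM1 : T_M1) (fs : Finset (X → ℂ))
    (hfs : ∀ θ, θ ∈ fs ↔ θ ∈ Irr X)
    (hexp : ∀ f : X → ℂ, CF f → ∀ x, (Nat.card X : ℂ) * f x =
      ∑ χ ∈ fs, (∑ g, f g * conj (χ g)) * χ x)
    {θ θ' : K → ℂ} (hθ : θ ∈ Irr K) (hθ' : θ' ∈ Irr K) :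
    ∑ χ ∈ fs, mu F χ θ * mu F χ θ' =
      ((Finset.range q).filter fun c => (fun k => θ ((F.sg ^ c) k)) = θ').card := by
  have h := hQ1 q X K F
  have e1 : ∑ k, F.ind θ (F.io k) * conj (θ' k) =
      (∑ χ ∈ fs, (mu F χ θ : ℂ) * mu F χ θ') * Nat.card K := by
    calc ∑ k, F.ind θ (F.io k) * conj (θ' k)
        = ∑ k, ∑ χ ∈ fs, (mu F χ θ : ℂ) * (χ (F.io k) * conj (θ' k)) := by
          refine Finset.sum_congr rfl fun k _ => ?_
          rw [ind_eq F hC1 hQ1 hM1 fs hfs hexp hθ, Finset.sum_mul]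
          refine Finset.sum_congr rfl fun χ _ => ?_
          ring
      _ = ∑ χ ∈ fs, (mu F χ θ : ℂ) * ∑ k, (χ (F.io k) * conj (θ' k)) := by
          rw [Finset.sum_comm]
          refine Finset.sum_congr rfl fun χ _ => ?_
          rw [Finset.mul_sum]
      _ = _ := by
          rw [Finset.sum_mul]
          refine Finset.sum_congr rfl fun χ hχ => ?_
          rw [mu_spec F hM1 ((hfs χ).mp hχ) hθ']
          ring
  have e2 : ∑ k, F.ind θ (F.io k) * conj (θ' k) =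
      (((Finset.range q).filter fun c => (fun k => θ ((F.sg ^ c) k)) = θ').card : ℂ) *
        Nat.card K := by
    calc ∑ k, F.ind θ (F.io k) * conj (θ' k)
        = ∑ k, ∑ c ∈ Finset.range q, θ ((F.sg ^ c) k) * conj (θ' k) := by
          refine Finset.sum_congr rfl fun k _ => ?_
          rw [h.2.2.2.2.2.2.1 θ k, Finset.sum_mul]
      _ = ∑ c ∈ Finset.range q, ∑ k, θ ((F.sg ^ c) k) * conj (θ' k) := Finset.sum_comm
      _ = ∑ c ∈ Finset.range q, (if (fun k => θ ((F.sg ^ c) k)) = θ' then (Nat.card K : ℂ)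
            else 0) := by
          refine Finset.sum_congr rfl fun c _ => ?_
          exact hA1 K (fun k => θ ((F.sg ^ c) k)) θ' (sg_irr F hQ1 hθ c) hθ'
      _ = _ := by
          rw [← Finset.sum_filter, Finset.sum_const, nsmul_eq_mul]
  rw [e2] at e1
  have e3 := mul_right_cancel₀ (card_ne (K := K)) e1
  exact_mod_cast e3.symm

/-- exactly one `1` among natural numbers with sum of squares `1` -/
theorem one_of_sq {ι : Type*} (s : Finset ι) (f : ι → ℕ) (h : ∑ i ∈ s, f i * f i = 1) :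
    ∃ i ∈ s, f i = 1 ∧ ∀ j ∈ s, j ≠ i → f j = 0 := by
  have hne : ∃ i ∈ s, f i ≠ 0 := by
    by_contra hc
    push Not at hc
    rw [Finset.sum_eq_zero (fun i hi => by rw [hc i hi, mul_zero])] at h
    omega
  obtain ⟨i, hi, hi0⟩ := hne
  rw [← Finset.add_sum_erase s _ hi] at h
  have h1 : 1 ≤ f i * f i := Nat.mul_pos (Nat.pos_of_ne_zero hi0) (Nat.pos_of_ne_zero hi0)
  have h2 : f i * f i = 1 := by omega
  have h3 : ∑ j ∈ s.erase i, f j * f j = 0 := by omega
  refine ⟨i, hi, Nat.eq_one_of_mul_eq_one_right h2, fun j hj hji => ?_⟩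
  rw [Finset.sum_eq_zero_iff] at h3
  have := h3 j (Finset.mem_erase.mpr ⟨hji, hj⟩)
  exact mul_self_eq_zero.mp this

end QQ

open QQ

/-- **Q2.** -/
theorem q2 (hC1 : T_C1) (hA1 : AMc.T_A1) (hE0 : T_E0) (hQ1 : T_Q1) (hM1 : T_M1) : T_Q2 := by
  intro q _ X K _ _ _ _ F θ hθ hinv
  obtain ⟨fs, hfs, hexp, -⟩ := hE0 X
  have hcount := count F hC1 hA1 hQ1 hM1 fs hfs hexp hθ hθ
  have hone : ((Finset.range q).filter fun c => (fun k => θ ((F.sg ^ c) k)) = θ) = {0} := by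
    ext c
    rw [Finset.mem_filter, Finset.mem_range, Finset.mem_singleton]
    constructor
    · rintro ⟨hc, he⟩
      refine (hQ1 q X K F).2.2.2.1 θ hθ hinv c 0 hc (Fact.out : q.Prime).pos fun k => ?_
      have := congrFun he k
      simpa using this
    · rintro rfl
      exact ⟨(Fact.out : q.Prime).pos, by funext k; simp⟩
  rw [hone, Finset.card_singleton] at hcount
  obtain ⟨χ₁, hχ₁, hm1, hm0⟩ := one_of_sq fs (fun χ => mu F χ θ) hcount
  have hind : F.ind θ = χ₁ := by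
    funext x
    rw [ind_eq F hC1 hQ1 hM1 fs hfs hexp hθ, Finset.sum_eq_single χ₁]
    · rw [hm1]; simp
    · intro χ hχ hne
      have := hm0 χ hχ hne
      rw [this]; simp
    · intro h
      exact absurd hχ₁ h
  have hirr := (hfs χ₁).mp hχ₁
  rw [hind]
  refine ⟨hirr, ?_, ?_⟩
  · rw [ov_iff F hM1 hirr hθ]
    rw [hm1]; exact one_ne_zero
  · intro χ hχ hov
    rw [ov_iff F hM1 hχ hθ] at hov
    by_contra hne
    exact hov (hm0 χ ((hfs χ).mpr hχ) hne)

/-- **Q4.** -/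
theorem q4 (hC1 : T_C1) (hA1 : AMc.T_A1) (hA2 : AMc.T_A2) (hE0 : T_E0) (hQ1 : T_Q1)
    (hM1 : T_M1) : T_Q4 := by
  intro q _ X K _ _ _ _ F χ hχ
  have hd := (hC1 X χ hχ).2.1
  have hcf : CF χ := (hC1 X χ hχ).1.cf
  have hχ1 : χ 1 ≠ 0 := by
    obtain ⟨d, hd0, hd1⟩ := hd
    rw [hd1]; exact_mod_cast hd0.ne'
  have hresCF : ∀ g x : K, χ (F.io (g * x * g⁻¹)) = χ (F.io x) := by
    intro g x
    rw [map_mul, map_mul, map_inv]
    exact hcf _ _
  have hsgχ : ∀ a : X → ℂ, CF a → ∀ (c : ℕ) (k : K), a (F.io ((F.sg ^ c) k)) = a (F.io k) := by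
    intro a ha c
    induction c with
    | zero => intro k; simp
    | succ c ih =>
      intro k
      rw [pow_succ, MulAut.mul_apply, ih, ← F.cj k]
      exact ha _ _
  obtain ⟨fs, hfs, hexp, -⟩ := hE0 X
  have h3 : ∀ θ ∈ Irr K, ∀ θ' ∈ Irr K, F.Ov χ θ → F.Ov χ θ' →
      ∃ c : ℕ, c < q ∧ ∀ k, θ' k = θ ((F.sg ^ c) k) := by
    intro θ hθ θ' hθ' ho ho'
    have hcount := count F hC1 hA1 hQ1 hM1 fs hfs hexp hθ hθ'
    rw [ov_iff F hM1 hχ hθ] at ho
    rw [ov_iff F hM1 hχ hθ'] at ho'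
    have hpos : 0 < ((Finset.range q).filter fun c => (fun k => θ ((F.sg ^ c) k)) = θ').card := by
      rw [← hcount]
      refine lt_of_lt_of_le (Nat.mul_pos (Nat.pos_of_ne_zero ho) (Nat.pos_of_ne_zero ho')) ?_
      exact Finset.single_le_sum (f := fun χ => mu F χ θ * mu F χ θ') (fun _ _ => Nat.zero_le _)
        ((hfs χ).mpr hχ)
    obtain ⟨c, hc⟩ := Finset.card_pos.mp hpos
    rw [Finset.mem_filter, Finset.mem_range] at hc
    exact ⟨c, hc.1, fun k => (congrFun hc.2 k).symm⟩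
  refine ⟨?_, ?_, h3, ?_⟩
  · by_contra hc
    push Not at hc
    have h0 := hA2 K (fun k => χ (F.io k)) hresCF (fun θ hθ => by
      have := hc θ hθ
      unfold Cy.Ov at this
      push Not at this
      exact this)
    have := congrFun h0 1
    simp only [map_one, Pi.zero_apply] at this
    exact hχ1 this
  · intro θ ho
    unfold Cy.Ov at ho ⊢
    intro h0
    apply ho
    rw [← h0]
    refine (Fintype.sum_equiv F.sg.toEquiv _ _ fun k => ?_).symm
    have := hsgχ χ hcf 1 k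
    rw [pow_one] at this
    show χ (F.io k) * conj (θ (F.sg k)) = χ (F.io (F.sg k)) * conj (θ (F.sg k))
    rw [this]
  · intro θ hθ ho a ha ha0
    obtain ⟨ks, hks, hkexp, -⟩ := hE0 K
    have hres : ∀ k, χ (F.io k) = ∑ θ' ∈ ks, (mu F χ θ' : ℂ) * θ' k := by
      intro k
      have h1 := hkexp (fun k => χ (F.io k)) hresCF k
      apply mul_left_cancel₀ (card_ne (K := K))
      rw [h1, Finset.mul_sum]
      refine Finset.sum_congr rfl fun θ' hθ' => ?_
      rw [mu_spec F hM1 hχ ((hks θ').mp hθ')]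
      ring
    -- the value at `θ'` of a class function of `X`
    have hval : ∀ θ' ∈ ks, (mu F χ θ' : ℂ) * ∑ k, a (F.io k) * θ' k =
        (mu F χ θ' : ℂ) * ∑ k, a (F.io k) * θ k := by
      intro θ' hθ'
      by_cases h0 : mu F χ θ' = 0
      · rw [h0]; simp
      · obtain ⟨c, -, hc⟩ := h3 θ hθ θ' ((hks θ').mp hθ') ho
          ((ov_iff F hM1 hχ ((hks θ').mp hθ')).mpr h0)
        congr 1
        refine Fintype.sum_equiv (F.sg ^ c).toEquiv _ _ fun k => ?_
        show a (F.io k) * θ' k = a (F.io ((F.sg ^ c) k)) * θ ((F.sg ^ c) k)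
        rw [hsgχ a ha c k, hc k]
    have hval1 : ∀ θ' ∈ ks, (mu F χ θ' : ℂ) * θ' 1 = (mu F χ θ' : ℂ) * θ 1 := by
      intro θ' hθ'
      by_cases h0 : mu F χ θ' = 0
      · rw [h0]; simp
      · obtain ⟨c, -, hc⟩ := h3 θ hθ θ' ((hks θ').mp hθ') ho
          ((ov_iff F hM1 hχ ((hks θ').mp hθ')).mpr h0)
        congr 1
        rw [hc 1, map_one]
    have e1 : ∑ x, a x * χ x = ∑ k, a (F.io k) * χ (F.io k) := by
      have himg : ∑ x ∈ Finset.univ.image F.io, a x * χ x = ∑ k, a (F.io k) * χ (F.io k) :=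
        Finset.sum_image (fun x _ y _ h => F.inj h)
      rw [← himg]
      symm
      apply Finset.sum_subset (Finset.subset_univ _)
      intro x _ hx
      rw [ha0 x, zero_mul]
      intro hp
      obtain ⟨k, hk⟩ := (F.ker x).mp hp
      exact hx (Finset.mem_image.mpr ⟨k, Finset.mem_univ _, hk⟩)
    have e2 : ∑ k, a (F.io k) * χ (F.io k) =
        (∑ θ' ∈ ks, (mu F χ θ' : ℂ)) * ∑ k, a (F.io k) * θ k := by
      calc ∑ k, a (F.io k) * χ (F.io k)
          = ∑ k, ∑ θ' ∈ ks, (mu F χ θ' : ℂ) * (a (F.io k) * θ' k) := by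
            refine Finset.sum_congr rfl fun k _ => ?_
            rw [hres k, Finset.mul_sum]
            refine Finset.sum_congr rfl fun θ' _ => ?_
            ring
        _ = ∑ θ' ∈ ks, (mu F χ θ' : ℂ) * ∑ k, a (F.io k) * θ' k := by
            rw [Finset.sum_comm]
            refine Finset.sum_congr rfl fun θ' _ => ?_
            rw [Finset.mul_sum]
        _ = _ := by
            rw [Finset.sum_mul]
            exact Finset.sum_congr rfl hval
    have e3 : χ 1 = (∑ θ' ∈ ks, (mu F χ θ' : ℂ)) * θ 1 := by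
      have := hres 1
      rw [map_one] at this
      rw [this, Finset.sum_mul]
      exact Finset.sum_congr rfl hval1
    have hM : (∑ θ' ∈ ks, (mu F χ θ' : ℂ)) ≠ 0 := by
      intro h0
      rw [h0, zero_mul] at e3
      exact hχ1 e3
    rw [e1, e2, e3, mul_div_mul_left _ _ hM]

end AMq
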