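import Pool.Agent.H87.AQ.Targets
import Pool.Agent.H19.AMX.P3

/-!
# Alperin–McKay (MP_657073_al), residue dichotomy: module U1 (products of Brauer triples)
-/

open scoped Classical ComplexConjugate

set_option linter.unusedSectionVars false

namespace AMq

open AMx

namespace U1

section prodtwo

variable {G K : Type} [Group G] [Group K] (D : Subgroup G) (E : Subgroup K)

theorem mem_norm_prod (x : G × K) :
    x ∈ Subgroup.normalizer ((D.prod E : Subgroup (G × K)) : Set (G × K)) ↔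
      x.1 ∈ Subgroup.normalizer (D : Set G) ∧ x.2 ∈ Subgroup.normalizer (E : Set K) := by
  simp only [Subgroup.mem_normalizer_iff, Subgroup.mem_prod]
  constructor
  · intro h
    constructor
    · intro a
      have := h (a, 1)
      simpa [E.one_mem] using this
    · intro a
      have := h (1, a)
      simpa [D.one_mem] using this
  · rintro ⟨h1, h2⟩ ⟨a, b⟩
    exact and_congr (h1 a) (h2 b)

/-- the normaliser of `D × E` -/
def eN : Subgroup.normalizer ((D.prod E : Subgroup (G × K)) : Set (G × K)) ≃*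
    (Subgroup.normalizer (D : Set G)) × (Subgroup.normalizer (E : Set K)) where
  toFun x := (⟨x.1.1, ((mem_norm_prod D E x.1).mp x.2).1⟩,
    ⟨x.1.2, ((mem_norm_prod D E x.1).mp x.2).2⟩)
  invFun y := ⟨(y.1.1, y.2.1), (mem_norm_prod D E _).mpr ⟨y.1.2, y.2.2⟩⟩
  left_inv _ := rfl
  right_inv _ := rfl
  map_mul' _ _ := rfl

end prodtwo

end U1

/-- **U1.** -/
theorem u1 (hC1 : T_C1) (hC2 : T_C2) (hL : T_L0) (hP1 : T_P1) (hP2 : T_P2) : T_U1 := by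
  intro ℓ _ 𝔪 hm hℓ G K _ _ _ _ D E χ χ₂ χ' χ₂' ψ ψ₂ ψ' ψ₂' hB hB'
  obtain ⟨hχ, hψ, hDχ, hDψ, hcorr⟩ := hB
  obtain ⟨hχ', hψ', hDχ', hDψ', hcorr'⟩ := hB'
  let N : Subgroup G := Subgroup.normalizer (D : Set G)
  let M : Subgroup K := Subgroup.normalizer (E : Set K)
  let D' : Subgroup N := D.subgroupOf N
  let E' : Subgroup M := E.subgroupOf M
  let e := U1.eN D E
  let Ψ : Subgroup.normalizer ((D.prod E : Subgroup (G × K)) : Set (G × K)) → ℂ :=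
    fun m => ψ (e m).1 * ψ' (e m).2
  have hsub : (D.prod E).subgroupOf
      (Subgroup.normalizer ((D.prod E : Subgroup (G × K)) : Set (G × K))) =
      (D'.prod E').comap e.toMonoidHom := by
    ext m
    rfl
  have h2 := hP2 ℓ 𝔪 hm hℓ G K χ χ' hχ hχ'
  have h2' := hP2 ℓ 𝔪 hm hℓ N M ψ ψ' hψ hψ'
  refine ⟨e, ?_, (h2.2 D E hDχ hDχ').2, ?_, ?_, ?_⟩
  · refine ⟨(hP1 G K _).mpr ⟨χ, hχ, χ', hχ', rfl⟩, ?_, (h2.2 D E hDχ hDχ').1, ?_, ?_⟩
    · exact HP.irr_equiv e hC1 hC2 _ ((hP1 N M _).mpr ⟨ψ, hψ, ψ', hψ', rfl⟩) Ψ (fun a => rfl)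
    · rw [hsub]
      exact HP.isDefect_equiv e 𝔪 ℓ _ Ψ (fun a => rfl) _ (h2'.2 D' E' hDψ hDψ').1
    · rintro ⟨g, h⟩
      rw [HP.cen_prod (MonoidHom.id G) (MonoidHom.id K) (MonoidHom.id (G × K)) (fun p => rfl)
          χ χ' g h,
        HP.cen_comp e (MonoidHom.prodMap N.subtype M.subtype) _ (fun a => rfl)
          (fun p => ψ p.1 * ψ' p.2) Ψ (fun a => rfl),
        HP.cen_prod N.subtype M.subtype _ (fun p => rfl) ψ ψ' g h]
      have hint := (hC1 G χ hχ).2.2.2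
      have hint' := (hC1 K χ' hχ').2.2.2
      exact HP.cong_mul hL hm (hint g) (hint' h) (hcorr g) (hcorr' h)
  · rw [hsub, ← (h2'.2 D' E' hDψ hDψ').2]
    exact HP.k0_equiv e 𝔪 ℓ hC1 hC2 (fun p => ψ p.1 * ψ' p.2) Ψ (fun a => rfl) _
  · intro h1 h1' hs hs'
    exact ⟨(hP1 G K _).mpr ⟨χ₂, h1, χ₂', h1', rfl⟩, (h2.1 χ₂ h1 χ₂' h1').mpr ⟨hs, hs'⟩⟩
  · intro h1 h1' hs hs'
    refine ⟨?_, ?_⟩
    · exact HP.irr_equiv e hC1 hC2 _ ((hP1 N M _).mpr ⟨ψ₂, h1, ψ₂', h1', rfl⟩) _ (fun a => rfl)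
    · exact (HP.sameBlock_equiv e 𝔪 (fun p => ψ p.1 * ψ' p.2) (fun p => ψ₂ p.1 * ψ₂' p.2) _ _
        (fun a => rfl) (fun a => rfl)).mpr ((h2'.1 ψ₂ h1 ψ₂' h1').mpr ⟨hs, hs'⟩)

end AMq
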