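import Pool.Agent.H87.AQ.Targets
import Pool.Agent.H16.AMX.P2

/-!
# Alperin–McKay (MP_657073_al), residue dichotomy: module W3 (the number of characters of height
zero in the wreath product)
-/

open scoped Classical ComplexConjugate

set_option linter.unusedSectionVars false

namespace AMq

open AMx

namespace WA

section

variable {q : ℕ} [hq : Fact q.Prime] {X H : Type} [Group X] [Fintype X] [Group H] [Fintype H]
  (F : Cy q X (ZMod q → H))

theorem pw_sg (hW : F.Wr) (τ : ZMod q → H → ℂ) (f : ZMod q → H) :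
    pw τ (F.sg f) = pw (fun i => τ (i - 1)) f := by
  unfold pw
  refine Fintype.prod_equiv (Equiv.addRight (1 : ZMod q)) _ _ fun i => ?_
  rw [hW f i]
  simp

theorem inv_iff (hV1 : T_V1) (hW : F.Wr) (τ : ZMod q → H → ℂ) (hτ : ∀ i, τ i ∈ Irr H) :
    F.Inv (pw τ) ↔ ∀ i, τ i = τ 0 := by
  unfold Cy.Inv
  constructor
  · intro h
    have h1 : pw (fun i => τ (i - 1)) = pw τ := by
      funext f
      rw [← pw_sg F hW, h f]
    have h2 := (hV1 (ZMod q) H).2.2 _ _ (fun i => hτ (i - 1)) hτ h1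
    have h3 : ∀ n : ℕ, τ (n : ZMod q) = τ 0 := by
      intro n
      induction n with
      | zero => simp
      | succ n ih =>
        have := congrFun h2 ((n + 1 : ℕ) : ZMod q)
        simp only [Nat.cast_add, Nat.cast_one, add_sub_cancel_right] at this
        rw [← ih]
        push_cast
        exact this.symm
    intro i
    have := h3 i.val
    rwa [ZMod.natCast_zmod_val] at this
  · intro h k
    rw [pw_sg F hW]
    congr 1
    funext i
    rw [h, h i]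

theorem padic_prod {ℓ : ℕ} [Fact ℓ.Prime] {ι : Type*} (s : Finset ι) (d : ι → ℕ)
    (h : ∀ i ∈ s, d i ≠ 0) :
    padicValNat ℓ (∏ i ∈ s, d i) = ∑ i ∈ s, padicValNat ℓ (d i) := by
  induction s using Finset.cons_induction with
  | empty => simp
  | cons a s ha ih =>
    rw [Finset.prod_cons, Finset.sum_cons, padicValNat.mul (h a (Finset.mem_cons_self a s))
      (Finset.prod_ne_zero_iff.mpr fun i hi => h i (Finset.mem_cons_of_mem hi)),
      ih fun i hi => h i (Finset.mem_cons_of_mem hi)]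

theorem index_pS (ι : Type) [Fintype ι] (D : Subgroup H) :
    (pS ι D).index = D.index ^ Fintype.card ι := by
  unfold pS
  rw [Subgroup.index_pi, Finset.prod_const, Finset.card_univ]

theorem index_map (hQ1 : T_Q1) {K : Type} [Group K] [Fintype K] (F : Cy q X K) (D : Subgroup K) :
    (D.map F.io).index = q * D.index := by
  rw [Subgroup.index_map_of_injective D F.inj, mul_comm]
  congr 1
  have h1 := Subgroup.index_mul_card F.io.range
  have h2 : Nat.card F.io.range = Nat.card K :=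
    (Nat.card_congr (MonoidHom.ofInjective F.inj).toEquiv).symm
  rw [h2, (hQ1 q X K F).1] at h1
  exact Nat.eq_of_mul_eq_mul_right Nat.card_pos h1

theorem val_mul {ℓ : ℕ} [Fact ℓ.Prime] (hne : q ≠ ℓ) {d : ℕ} (hd : d ≠ 0) :
    padicValNat ℓ (q * d) = padicValNat ℓ d := by
  rw [padicValNat.mul hq.out.ne_zero hd, padicValNat_primes (Ne.symm hne), zero_add]

end

end WA

open WA

/-- **W3.** -/
theorem w3 (hC1 : T_C1) (hL0 : T_L0) (hQ1 : T_Q1) (hQ2 : T_Q2) (hQ3 : T_Q3) (hQ4 : T_Q4)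
    (hQ5 : T_Q5) (hV1 : T_V1) (hV2 : T_V2) (hR1 : T_R1) (hW1 : T_W1) : T_W3 := by
  intro ℓ _ 𝔪 hm hℓ q _ hqℓ X H _ _ _ _ F hWr χ hχ D hD τ₀ hτ₀ hninv
  obtain ⟨Lr, Ls, Lt, -⟩ := hL0 𝔪 hm
  have bs : ∀ {a b : H → ℂ}, SameBlock 𝔪 a b → SameBlock 𝔪 b a := fun h x => Ls _ _ (h x)
  have bt : ∀ {a b c : H → ℂ}, SameBlock 𝔪 a b → SameBlock 𝔪 b c → SameBlock 𝔪 a c :=
    fun h h' x => Lt _ _ _ (h x) (h' x)
  have hτirr : ∀ i, τ₀ i ∈ Irr H := fun i => (hτ₀ i).1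
  have hpw₀ : pw τ₀ ∈ Irr (ZMod q → H) := (hV1 (ZMod q) H).1 τ₀ hτirr
  -- blocks of `pw τ`
  have hblk : ∀ τ : ZMod q → H → ℂ, (∀ i, τ i ∈ Irr H) →
      (SameBlock 𝔪 (pw τ₀) (pw τ) ↔ ∀ i, SameBlock 𝔪 χ (τ i)) := by
    intro τ hτ
    rw [(hV2 𝔪 hm (ZMod q) H).2.1 τ₀ τ hτirr hτ]
    exact forall_congr' fun i => ⟨fun h => bt (hτ₀ i).2 h, fun h => bt (bs (hτ₀ i).2) h⟩
  have hDi : D.index ≠ 0 := Subgroup.index_ne_zero_of_finite
  have hpSi : (pS (ZMod q) D).index ≠ 0 := Subgroup.index_ne_zero_of_finite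
  set S : Set (H → ℂ) := {χ' : H → ℂ | χ' ∈ Irr H ∧ SameBlock 𝔪 χ χ' ∧
    ∃ d : ℕ, χ' 1 = d ∧ padicValNat ℓ d = padicValNat ℓ D.index} with hS
  have hk0 : k0 ℓ 𝔪 χ D = S.ncard := rfl
  let A : Set ((ZMod q → H) → ℂ) := {θ | θ ∈ Irr (ZMod q → H) ∧ SameBlock 𝔪 (pw τ₀) θ ∧
    ∃ d : ℕ, θ 1 = d ∧ padicValNat ℓ d = padicValNat ℓ (pS (ZMod q) D).index}
  let B : Set (X → ℂ) := {χ' : X → ℂ | χ' ∈ Irr X ∧ SameBlock 𝔪 (F.ind (pw τ₀)) χ' ∧
    ∃ d : ℕ, χ' 1 = d ∧ padicValNat ℓ d = padicValNat ℓ ((pS (ZMod q) D).map F.io).index}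
  have hk0' : k0 ℓ 𝔪 (F.ind (pw τ₀)) ((pS (ZMod q) D).map F.io) = B.ncard := rfl
  -- the elements of `A`
  have hval : padicValNat ℓ (pS (ZMod q) D).index = q * padicValNat ℓ D.index := by
    rw [index_pS, ZMod.card, padicValNat.pow]
  have hpw1 : ∀ τ : ZMod q → H → ℂ, pw τ 1 = ∏ i, τ i 1 := fun τ => rfl
  have hA : A = pw '' {τ : ZMod q → H → ℂ | ∀ i, τ i ∈ S} := by
    ext θ
    constructor
    · rintro ⟨hθ, hb, d, hd, hvd⟩
      obtain ⟨τ, hτ, rfl⟩ := (hV1 (ZMod q) H).2.1 θ hθ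
      refine ⟨τ, ?_, rfl⟩
      have hb' := (hblk τ hτ).mp hb
      choose e he he1 using fun i => (hC1 H (τ i) (hτ i)).2.1
      have hle : ∀ i ∈ Finset.univ, padicValNat ℓ D.index ≤ padicValNat ℓ (e i) := fun i _ =>
        P2aux.height_le hm hℓ hC1 hL0 χ (τ i) hχ (hτ i) D hD (hb' i) (e i) (he1 i)
      have hde : d = ∏ i, e i := by
        have : (d : ℂ) = ((∏ i, e i : ℕ) : ℂ) := by
          rw [← hd, hpw1, Nat.cast_prod]
          exact Finset.prod_congr rfl fun i _ => he1 i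
        exact_mod_cast this
      have hsum : ∑ i : ZMod q, padicValNat ℓ D.index = ∑ i, padicValNat ℓ (e i) := by
        rw [← padic_prod Finset.univ e (fun i _ => (he i).ne'), ← hde, hvd, hval,
          Finset.sum_const, Finset.card_univ, ZMod.card, smul_eq_mul]
      have heq := (Finset.sum_eq_sum_iff_of_le hle).mp hsum
      intro i
      exact ⟨hτ i, hb' i, e i, he1 i, (heq i (Finset.mem_univ i)).symm⟩
    · rintro ⟨τ, hτ, rfl⟩
      choose h1 h2 e h3 h4 using hτ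
      refine ⟨(hV1 (ZMod q) H).1 τ h1, (hblk τ h1).mpr h2, ∏ i, e i, ?_, ?_⟩
      · rw [hpw1, Nat.cast_prod]
        exact Finset.prod_congr rfl fun i _ => h3 i
      · rw [padic_prod, hval, Finset.sum_congr rfl fun i _ => h4 i, Finset.sum_const,
          Finset.card_univ, ZMod.card, smul_eq_mul]
        intro i _ h0
        obtain ⟨d', hd', hd1⟩ := (hC1 H (τ i) (h1 i)).2.1
        rw [h3 i, h0] at hd1
        have : (0 : ℕ) = d' := by exact_mod_cast hd1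
        omega
  have hinj : Set.InjOn pw {τ : ZMod q → H → ℂ | ∀ i, τ i ∈ S} := by
    intro τ hτ τ' hτ' h
    exact (hV1 (ZMod q) H).2.2 τ τ' (fun i => (hτ i).1) (fun i => (hτ' i).1) h
  have hAcard : A.ncard = S.ncard ^ q := by
    rw [hA, hinj.ncard_image]
    have e : {τ : ZMod q → H → ℂ | ∀ i, τ i ∈ S} ≃ (ZMod q → S) :=
      { toFun := fun τ i => ⟨τ.1 i, τ.2 i⟩
        invFun := fun f => ⟨fun i => (f i).1, fun i => (f i).2⟩
        left_inv := fun τ => rfl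
        right_inv := fun f => rfl }
    rw [← Nat.card_coe_set_eq, Nat.card_congr e, Nat.card_fun, Nat.card_coe_set_eq, Nat.card_zmod]
  have hIcard : {θ | θ ∈ A ∧ F.Inv θ}.ncard = S.ncard := by
    have hI : {θ | θ ∈ A ∧ F.Inv θ} = (fun s : H → ℂ => pw (fun _ : ZMod q => s)) '' S := by
      ext θ
      constructor
      · rintro ⟨hθ, hinv⟩
        rw [hA] at hθ
        obtain ⟨τ, hτ, rfl⟩ := hθ
        have := (inv_iff F hV1 hWr τ (fun i => (hτ i).1)).mp hinv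
        refine ⟨τ 0, hτ 0, ?_⟩
        show pw (fun _ : ZMod q => τ 0) = pw τ
        congr 1
        funext i
        rw [this i]
      · rintro ⟨s, hs, rfl⟩
        refine ⟨?_, (inv_iff F hV1 hWr _ (fun _ => hs.1)).mpr fun _ => rfl⟩
        rw [hA]
        exact ⟨fun _ => s, fun _ => hs, rfl⟩
    rw [hI, Set.InjOn.ncard_image]
    intro s hs s' hs' h
    have := (hV1 (ZMod q) H).2.2 (fun _ => s) (fun _ => s') (fun _ => hs.1) (fun _ => hs'.1) h
    exact congrFun this 0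
  -- `A` is closed under `sg`
  have hAsg : ∀ θ ∈ A, θ ∈ Irr (ZMod q → H) ∧ (fun k => θ (F.sg k)) ∈ A := by
    intro θ hθ
    refine ⟨hθ.1, ?_⟩
    rw [hA] at hθ ⊢
    obtain ⟨τ, hτ, rfl⟩ := hθ
    refine ⟨fun i => τ (i - 1), fun i => hτ (i - 1), ?_⟩
    funext f
    exact (pw_sg F hWr τ f).symm
  -- degrees
  have hmapi : ((pS (ZMod q) D).map F.io).index = q * (pS (ZMod q) D).index :=
    index_map hQ1 F (pS (ZMod q) D)
  have hmapv : padicValNat ℓ ((pS (ZMod q) D).map F.io).index =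
      padicValNat ℓ (pS (ZMod q) D).index := by
    rw [hmapi, val_mul hqℓ hpSi]
  have hdeg : ∀ χ' ∈ Irr X, ∀ θ ∈ Irr (ZMod q → H), F.Ov χ' θ → ∀ d e : ℕ, χ' 1 = d → θ 1 = e →
      padicValNat ℓ d = padicValNat ℓ e := by
    intro χ' hχ' θ hθ ho d e hd he
    by_cases hinv : F.Inv θ
    · have := (hQ3 q X (ZMod q → H) F θ hθ hinv).2 χ' hχ' ho 1
      rw [map_one, hd, he] at this
      have : d = e := by exact_mod_cast this
      rw [this]
    · have h1 := (hQ2 q X (ZMod q → H) F θ hθ hinv).2.2 χ' hχ' ho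
      have h2 := (hQ1 q X (ZMod q → H) F).2.2.2.2.2.1 θ
      rw [← h1, hd, he] at h2
      have h3 : d = q * e := by exact_mod_cast h2
      have he0 : e ≠ 0 := by
        intro h0
        obtain ⟨d', hd', hd1⟩ := (hC1 (ZMod q → H) θ hθ).2.1
        rw [he, h0] at hd1
        have : (0 : ℕ) = d' := by exact_mod_cast hd1
        omega
      rw [h3, val_mul hqℓ he0]
  have hB : ∀ χ', χ' ∈ B ↔ χ' ∈ Irr X ∧ ∃ θ ∈ A, F.Ov χ' θ := by
    intro χ'
    constructor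
    · rintro ⟨hχ', hb, d, hd, hvd⟩
      refine ⟨hχ', ?_⟩
      obtain ⟨θ, hθ, ho⟩ := (hQ4 q X (ZMod q → H) F χ' hχ').1
      obtain ⟨τ, hτ, rfl⟩ := (hV1 (ZMod q) H).2.1 θ hθ
      have htup := hW1 𝔪 hm q X H F hWr χ hχ τ₀ τ hτ₀ hninv hτ χ' hχ' ho hb
      obtain ⟨e, he, he1⟩ := (hC1 (ZMod q → H) _ hθ).2.1
      refine ⟨pw τ, ⟨hθ, (hblk τ hτ).mpr fun i => (htup i).2, e, he1, ?_⟩, ho⟩
      rw [← hdeg χ' hχ' _ hθ ho d e hd he1, hvd, hmapv]
    · rintro ⟨hχ', θ, ⟨hθ, hb, e, he, hve⟩, ho⟩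
      refine ⟨hχ', hR1 𝔪 hm q X (ZMod q → H) F (pw τ₀) hpw₀ hninv θ hθ hb χ' hχ' ho, ?_⟩
      obtain ⟨d, hd, hd1⟩ := (hC1 X χ' hχ').2.1
      refine ⟨d, hd1, ?_⟩
      rw [hdeg χ' hχ' θ hθ ho d e hd1 he, hve, hmapv]
  have h5 := hQ5 q X (ZMod q → H) F A B hAsg hB
  rw [hAcard, hIcard] at h5
  rw [hk0', hk0]
  unfold th
  have hq0 : 0 < q := (Fact.out : q.Prime).pos
  symm
  apply Nat.div_eq_of_eq_mul_right hq0
  have hq2 : 1 ≤ q ^ 2 := Nat.one_le_pow _ _ hq0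
  have h6 : (q ^ 2 - 1) * S.ncard + S.ncard = q ^ 2 * S.ncard := by
    calc (q ^ 2 - 1) * S.ncard + S.ncard = (q ^ 2 - 1 + 1) * S.ncard := by ring
      _ = _ := by rw [Nat.sub_add_cancel hq2]
  omega

end AMq
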