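import Pool.Agent.H4.AQ.W3

/-!
# Alperin–McKay (MP_657073_al), residue dichotomy: module W7 (the Brauer triple of the wreath
product)
-/

open scoped Classical ComplexConjugate

set_option linter.unusedSectionVars false

namespace AMq

open AMx

namespace W7a

theorem pow_closed {ℓ : ℕ} {𝓓 : (D : Type) → [Group D] → Prop} (hC : Closed ℓ 𝓓) (D : Type)
    [Group D] (hD : 𝓓 D) (n : ℕ) : 𝓓 (Fin (n + 1) → D) := by
  induction n with
  | zero =>
    refine hC.iso D (Fin 1 → D) ⟨?_⟩ hD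
    exact
      { toFun := fun d _ => d
        invFun := fun f => f 0
        left_inv := fun d => rfl
        right_inv := fun f => by
          funext i
          rw [Subsingleton.elim i 0]
        map_mul' := fun a b => rfl }
  | succ n ih =>
    refine hC.iso (D × (Fin (n + 1) → D)) (Fin (n + 1 + 1) → D) ⟨?_⟩ (hC.prod _ _ hD ih)
    exact
      { toFun := fun p => Fin.cons p.1 p.2
        invFun := fun f => (f 0, fun i => f i.succ)
        left_inv := fun p => by simp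
        right_inv := fun f => by
          funext i
          refine Fin.cases ?_ (fun j => ?_) i
          · simp
          · simp
        map_mul' := fun a b => by
          funext i
          refine Fin.cases ?_ (fun j => ?_) i
          · simp
          · simp }

theorem zmod_closed {ℓ : ℕ} {𝓓 : (D : Type) → [Group D] → Prop} (hC : Closed ℓ 𝓓) (D : Type)
    [Group D] (hD : 𝓓 D) (q : ℕ) [hq : Fact q.Prime] : 𝓓 (ZMod q → D) := by
  obtain ⟨n, hn⟩ : ∃ n, q = n + 1 := ⟨q - 1, by have := hq.out.pos; omega⟩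
  have hcard : Fintype.card (ZMod q) = n + 1 := by rw [ZMod.card, hn]
  have e : ZMod q ≃ Fin (n + 1) := Fintype.equivFinOfCardEq hcard
  refine hC.iso (Fin (n + 1) → D) (ZMod q → D) ⟨?_⟩ (pow_closed hC D hD n)
  exact
    { toFun := fun f i => f (e i)
      invFun := fun f i => f (e.symm i)
      left_inv := fun f => by
        funext i
        simp
      right_inv := fun f => by
        funext i
        simp
      map_mul' := fun a b => rfl }

theorem map_closed {ℓ : ℕ} {𝓓 : (D : Type) → [Group D] → Prop} (hC : Closed ℓ 𝓓) {H X : Type}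
    [Group H] [Group X] (D : Subgroup H) (hD : 𝓓 D) (q : ℕ) [hq : Fact q.Prime]
    (io : (ZMod q → H) →* X) (hinj : Function.Injective io) :
    𝓓 ((pS (ZMod q) D).map io) := by
  refine hC.iso (ZMod q → D) ((pS (ZMod q) D).map io) ⟨?_⟩ (zmod_closed hC D hD q)
  have e1 : (ZMod q → D) ≃* (pS (ZMod q) D) :=
    { toFun := fun f => ⟨fun i => (f i : H), fun i _ => (f i).2⟩
      invFun := fun f i => ⟨f.1 i, f.2 i (Set.mem_univ i)⟩
      left_inv := fun f => rfl
      right_inv := fun f => rfl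
      map_mul' := fun a b => rfl }
  exact e1.trans ((pS (ZMod q) D).equivMapOfInjective io hinj)

theorem tup_update (hL0 : T_L0) {𝔪 : Ideal (integralClosure ℤ ℂ)} (hm : 𝔪.IsMaximal) {H : Type}
    [Group H] [Fintype H] (q : ℕ) {χ χ₂ : H → ℂ} (hχ : χ ∈ Irr H) (hχ₂ : χ₂ ∈ Irr H)
    (hb : SameBlock 𝔪 χ χ₂) :
    Tup 𝔪 χ (Function.update (fun _ : ZMod q => χ) 0 χ₂) := by
  intro i
  by_cases hi : i = 0
  · subst hi
    rw [Function.update_self]
    exact ⟨hχ₂, hb⟩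
  · rw [Function.update_of_ne hi]
    exact ⟨hχ, fun x => (hL0 𝔪 hm).1 _⟩

theorem not_inv (hV1 : T_V1) {q : ℕ} [hq : Fact q.Prime] {X H : Type} [Group X] [Fintype X]
    [Group H] [Fintype H] (F : Cy q X (ZMod q → H)) (hW : F.Wr) {χ χ₂ : H → ℂ}
    (hχ : χ ∈ Irr H) (hχ₂ : χ₂ ∈ Irr H) (hne : χ₂ ≠ χ) :
    ¬ F.Inv (pw (Function.update (fun _ : ZMod q => χ) 0 χ₂)) := by
  have hirr : ∀ i, Function.update (fun _ : ZMod q => χ) 0 χ₂ i ∈ Irr H := by
    intro i
    by_cases hi : i = 0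
    · subst hi
      rw [Function.update_self]
      exact hχ₂
    · rw [Function.update_of_ne hi]
      exact hχ
  rw [WA.inv_iff F hV1 hW _ hirr]
  intro h
  have h1 := h 1
  rw [Function.update_self, Function.update_of_ne one_ne_zero] at h1
  exact hne h1.symm

/-- replacing the second character of a correspondence within its block -/
theorem corr_right (hL0 : T_L0) (hL1 : T_L1) {𝔪 : Ideal (integralClosure ℤ ℂ)}
    (hm : 𝔪.IsMaximal) {N G : Type} [Group N] [Fintype N] [Group G] [Fintype G] (j : N →* G)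
    (χ : G → ℂ) (ψ ψ₂ : N → ℂ) (hcf : CF ψ) (hb : SameBlock 𝔪 ψ ψ₂) (h : Corr 𝔪 j χ ψ) :
    Corr 𝔪 j χ ψ₂ := by
  intro x
  refine (hL0 𝔪 hm).2.2.1 _ _ _ (h x) ?_
  have h1 := hL1 𝔪 N N (MonoidHom.id N) ψ ψ₂ hcf hb (fun y => if IsConj x (j y) then 1 else 0)
    (fun g y => by
      have hiff : IsConj x (j (g * y * g⁻¹)) ↔ IsConj x (j y) := by
        have h2 : IsConj (j y) (j (g * y * g⁻¹)) := by
          rw [map_mul, map_mul, map_inv]
          exact isConj_iff.mpr ⟨j g, rfl⟩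
        exact ⟨fun h3 => h3.trans h2.symm, fun h3 => h3.trans h2⟩
      beta_reduce
      by_cases h3 : IsConj x (j y)
      · rw [if_pos (hiff.mpr h3), if_pos h3]
      · rw [if_neg (fun h4 => h3 (hiff.mp h4)), if_neg h3])
    (fun y => by
      split_ifs
      · exact isIntegral_one
      · exact isIntegral_zero)
  have h5 : ∀ f : N → ℂ, cen j f x =
      (∑ y, (fun y : N => if IsConj x (j y) then (1 : ℂ) else 0) y * f y) / f 1 := by
    intro f
    unfold cen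
    congr 1
    refine Finset.sum_congr rfl fun y _ => ?_
    beta_reduce
    by_cases h3 : IsConj x (j y)
    · rw [if_pos h3, if_pos h3, one_mul]
    · rw [if_neg h3, if_neg h3, zero_mul]
  rw [h5 ψ, h5 ψ₂]
  exact h1

theorem corr_left (hL0 : T_L0) {𝔪 : Ideal (integralClosure ℤ ℂ)}
    (hm : 𝔪.IsMaximal) {N G : Type} [Group N] [Fintype N] [Group G] [Fintype G] (j : N →* G)
    (χ χ₂ : G → ℂ) (ψ : N → ℂ) (hb : SameBlock 𝔪 χ χ₂) (h : Corr 𝔪 j χ ψ) :
    Corr 𝔪 j χ₂ ψ := by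
  intro x
  exact (hL0 𝔪 hm).2.2.1 _ _ _ ((hL0 𝔪 hm).2.1 _ _ (hb x)) (h x)

end W7a

open W7a

/-- **W7.** -/
theorem w7 (hC1 : T_C1) (hL0 : T_L0) (hL1 : T_L1) (hQ2 : T_Q2) (hV1 : T_V1) (hW2 : T_W2)
    (hW3 : T_W3) (hW4 : T_W4) (hW5 : T_W5) (hW6 : T_W6) : T_W7 := by
  intro ℓ _ 𝔪 hm hℓ q _ hqℓ H _ _ D χ ψ hB h2 h2' 𝓓 hC hD
  obtain ⟨hχ, hψ, hDχ, hDψ, hcorr⟩ := hB
  obtain ⟨χ₂, hχ₂, hne, hb⟩ := h2
  obtain ⟨ψ₂, hψ₂, hne', hb'⟩ := h2'
  obtain ⟨X, _, _, F, hF⟩ := hW6 q H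
  obtain ⟨F', hF', hio, -, hp, hmap⟩ := hW4 q X H F hF D
  have ht := tup_update hL0 hm q hχ hχ₂ hb
  have ht' := tup_update hL0 hm q hψ hψ₂ hb'
  have hn := not_inv hV1 F hF hχ hχ₂ hne
  have hn' := not_inv hV1 F' hF' hψ hψ₂ hne'
  have hpw := (hV1 (ZMod q) H).1 _ (fun i => (ht i).1)
  have hpw' := (hV1 (ZMod q) (Subgroup.normalizer (D : Set H))).1 _ (fun i => (ht' i).1)
  refine ⟨X, inferInstance, inferInstance, (pS (ZMod q) D).map F.io,
    F.ind (pw (Function.update (fun _ : ZMod q => χ) 0 χ₂)),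
    F'.ind (pw (Function.update (fun _ : ZMod q => ψ) 0 ψ₂)), ⟨?_, ?_, ?_, ?_, ?_⟩, ?_, ?_, ?_⟩
  · exact (hQ2 q X (ZMod q → H) F _ hpw hn).1
  · exact (hQ2 q _ (ZMod q → Subgroup.normalizer (D : Set H)) F' _ hpw' hn').1
  · exact hW2 ℓ 𝔪 hm hℓ q hqℓ X H F hF χ hχ D hDχ _ ht hn
  · rw [← hmap]
    exact hW2 ℓ 𝔪 hm hℓ q hqℓ _ _ F' hF' ψ hψ _ hDψ _ ht' hn'
  · refine hW5 𝔪 hm q X H _ (Subgroup.normalizer (D : Set H)) F F' hF hF'
      (Subgroup.normalizer (D : Set H)).subtype (Subgroup.subtype _)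
      (Subgroup.subtype_injective _) hio hp _ _ (fun i => (ht i).1) (fun i => (ht' i).1) ?_
    intro i k
    have hcfψ : CF ψ := (hC1 _ ψ hψ).1.cf
    have c1 : Corr 𝔪 (Subgroup.normalizer (D : Set H)).subtype χ
        (Function.update (fun _ : ZMod q => ψ) 0 ψ₂ k) :=
      corr_right hL0 hL1 hm _ χ ψ _ hcfψ (ht' k).2 hcorr
    exact corr_left hL0 hm _ χ _ _ (ht i).2 c1
  · exact map_closed hC D hD q F.io F.inj
  · exact hW3 ℓ 𝔪 hm hℓ q hqℓ X H F hF χ hχ D hDχ _ ht hn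
  · rw [← hmap]
    exact hW3 ℓ 𝔪 hm hℓ q hqℓ _ _ F' hF' ψ hψ _ hDψ _ ht' hn'

end AMq
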